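import Pool.Agent.H23.LC.Targets

/-!
# (GE) the Gamma factor: no zeros, poles and growth of the inverse
-/

set_option autoImplicit false

open NumberField NumberField.InfinitePlace Complex Set

namespace Pool.Agent.H18.GLB

open Pool.Agent.H25.HK Pool.Agent.H23.LB Pool.Agent.H23.LC

namespace GEa

/-- exponential growth in vertical strips -/
def Gr (f : ℂ → ℂ) : Prop :=
  ∀ b : ℝ, ∃ C A : ℝ, ∀ s : ℂ, |s.re| ≤ b → ‖f s‖ ≤ C * Real.exp (A * |s.im|)

lemma Gr.pos {f : ℂ → ℂ} (h : Gr f) (b : ℝ) : ∃ C A : ℝ, 0 ≤ C ∧ 0 ≤ A ∧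
    ∀ s : ℂ, |s.re| ≤ b → ‖f s‖ ≤ C * Real.exp (A * |s.im|) := by
  obtain ⟨C, A, h⟩ := h b
  refine ⟨|C|, |A|, abs_nonneg _, abs_nonneg _, fun s hs => (h s hs).trans ?_⟩
  have h1 : A * |s.im| ≤ |A| * |s.im| :=
    mul_le_mul_of_nonneg_right (le_abs_self A) (abs_nonneg _)
  exact mul_le_mul (le_abs_self C) (Real.exp_le_exp.2 h1) (Real.exp_pos _).le (abs_nonneg _)

lemma Gr.mul {f g : ℂ → ℂ} (hf : Gr f) (hg : Gr g) : Gr (fun s => f s * g s) := by
  intro b
  obtain ⟨C, A, hC, hA, h⟩ := hf.pos b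
  obtain ⟨C', A', hC', hA', h'⟩ := hg.pos b
  refine ⟨C * C', A + A', fun s hs => ?_⟩
  rw [norm_mul, add_mul, Real.exp_add]
  calc ‖f s‖ * ‖g s‖ ≤ (C * Real.exp (A * |s.im|)) * (C' * Real.exp (A' * |s.im|)) :=
        mul_le_mul (h s hs) (h' s hs) (norm_nonneg _) (by positivity)
    _ = _ := by ring

lemma Gr.one : Gr (fun _ => 1) := fun b => ⟨1, 0, fun s _ => by simp⟩

lemma Gr.prod {ι : Type*} (S : Finset ι) {f : ι → ℂ → ℂ} (h : ∀ i ∈ S, Gr (f i)) :
    Gr (fun s => ∏ i ∈ S, f i s) := by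
  classical
  induction S using Finset.induction_on with
  | empty => simpa using Gr.one
  | insert i S hi ih =>
    simp only [Finset.prod_insert hi]
    exact (h i (Finset.mem_insert_self _ _)).mul
      (ih fun j hj => h j (Finset.mem_insert_of_mem hj))

lemma Gr.shift {f : ℂ → ℂ} (h : Gr f) (c : ℂ) : Gr (fun s => f (s + c)) := by
  intro b
  obtain ⟨C, A, hC, hA, h⟩ := h.pos (b + ‖c‖)
  refine ⟨C * Real.exp (A * ‖c‖), A, fun s hs => ?_⟩
  have h1 : |(s + c).re| ≤ b + ‖c‖ := by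
    rw [add_re]
    exact (abs_add_le _ _).trans (add_le_add hs (Complex.abs_re_le_norm c))
  have h2 : |(s + c).im| ≤ |s.im| + ‖c‖ := by
    rw [add_im]
    exact (abs_add_le _ _).trans (add_le_add le_rfl (Complex.abs_im_le_norm c))
  refine (h _ h1).trans ?_
  rw [mul_assoc, ← Real.exp_add]
  refine mul_le_mul_of_nonneg_left (Real.exp_le_exp.2 ?_) hC
  nlinarith

lemma norm_Gamma_le_re {s : ℂ} (hs : 0 < s.re) : ‖Gamma s‖ ≤ Real.Gamma s.re := by
  rw [Complex.Gamma_eq_integral hs, Real.Gamma_eq_integral hs]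
  refine (MeasureTheory.norm_integral_le_integral_norm _).trans_eq ?_
  refine MeasureTheory.setIntegral_congr_fun measurableSet_Ioi fun x hx => ?_
  have hx' : (0 : ℝ) < x := hx
  simp only [norm_mul]
  rw [Complex.norm_cpow_eq_rpow_re_of_pos hx']
  congr 1
  rw [Complex.norm_real, Real.norm_eq_abs, abs_of_pos (Real.exp_pos _)]

lemma norm_sin_le (z : ℂ) : ‖Complex.sin z‖ ≤ Real.exp |z.im| := by
  rw [Complex.sin]
  have h1 : ‖cexp (-z * I)‖ ≤ Real.exp |z.im| := by
    rw [Complex.norm_exp]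
    refine Real.exp_le_exp.2 ?_
    simp
    exact le_abs_self _
  have h2 : ‖cexp (z * I)‖ ≤ Real.exp |z.im| := by
    rw [Complex.norm_exp]
    refine Real.exp_le_exp.2 ?_
    simp
    exact neg_le_abs _
  have h3 : ‖(cexp (-z * I) - cexp (z * I)) * I / 2‖ =
      ‖cexp (-z * I) - cexp (z * I)‖ / 2 := by simp
  rw [h3]
  have h4 := norm_sub_le (cexp (-z * I)) (cexp (z * I))
  linarith

lemma inv_Gamma_left {w : ℂ} (hw : w.re ≤ 0) :
    (Gamma w)⁻¹ = Gamma (1 - w) * Complex.sin (Real.pi * w) / Real.pi := by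
  have hpi : (Real.pi : ℂ) ≠ 0 := by exact_mod_cast Real.pi_ne_zero
  have h1 : Gamma (1 - w) ≠ 0 := by
    refine Complex.Gamma_ne_zero_of_re_pos ?_
    rw [sub_re, one_re]
    linarith
  have h2 := Complex.Gamma_mul_Gamma_one_sub w
  by_cases hs : Complex.sin (Real.pi * w) = 0
  · rw [hs, div_zero] at h2
    have h3 : Gamma w = 0 := by
      rcases mul_eq_zero.1 h2 with h | h
      · exact h
      · exact absurd h h1
    rw [h3, hs]
    simp
  · have h3 : Gamma w ≠ 0 := by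
      intro h
      rw [h, zero_mul] at h2
      have := div_ne_zero hpi hs
      exact this h2.symm
    rw [eq_div_iff hs] at h2
    generalize Complex.sin (Real.pi * w) = S at h2 ⊢
    rw [eq_div_iff hpi, ← h2]
    field_simp

lemma step {z : ℂ} (him : 1 ≤ |z.im|) : ‖(Gamma z)⁻¹‖ ≤ ‖(Gamma (z - 1))⁻¹‖ := by
  have h0 : z - 1 ≠ 0 := by
    intro h
    have : z.im = 0 := by
      have := congrArg Complex.im h
      simpa using this
    rw [this, abs_zero] at him
    linarith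
  have h1 := Complex.Gamma_add_one (z - 1) h0
  rw [sub_add_cancel] at h1
  rw [h1, mul_inv, norm_mul]
  have h2 : 1 ≤ ‖z - 1‖ := by
    refine him.trans ?_
    have := Complex.abs_im_le_norm (z - 1)
    simpa using this
  have h3 : ‖(z - 1)⁻¹‖ ≤ 1 := by
    rw [norm_inv]
    exact inv_le_one_of_one_le₀ h2
  calc ‖(z - 1)⁻¹‖ * ‖(Gamma (z - 1))⁻¹‖ ≤ 1 * ‖(Gamma (z - 1))⁻¹‖ :=
        mul_le_mul_of_nonneg_right h3 (norm_nonneg _)
    _ = _ := one_mul _

lemma steps {z : ℂ} (him : 1 ≤ |z.im|) (m : ℕ) :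
    ‖(Gamma z)⁻¹‖ ≤ ‖(Gamma (z - m))⁻¹‖ := by
  induction m with
  | zero => simp
  | succ m ih =>
    refine ih.trans ?_
    have h1 : 1 ≤ |(z - m).im| := by simpa using him
    refine (step h1).trans_eq ?_
    push_cast
    rw [sub_sub]

lemma gr_inv_Gamma : Gr (fun s => (Gamma s)⁻¹) := by
  intro b
  obtain ⟨m, hm⟩ := exists_nat_ge b
  -- the real Gamma function is bounded on a compact interval
  have hcon : ContinuousOn Real.Gamma (Icc 1 (1 + b + m)) := by
    intro x hx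
    refine (Real.differentiableAt_Gamma fun n hn => ?_).continuousAt.continuousWithinAt
    have h1 := hx.1
    rw [hn] at h1
    have : (0 : ℝ) ≤ n := Nat.cast_nonneg n
    linarith
  obtain ⟨B, hB⟩ := (isCompact_Icc.bddAbove_image hcon)
  -- the compact part
  have hK : IsCompact {s : ℂ | s.re ∈ Icc (-b) b ∧ s.im ∈ Icc (-1 : ℝ) 1} := by
    have h1 := (isCompact_Icc (a := -b) (b := b)).reProdIm (isCompact_Icc (a := (-1 : ℝ)) (b := 1))
    exact h1
  obtain ⟨B', hB'⟩ := hK.bddAbove_image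
    (f := fun s => ‖(Gamma s)⁻¹‖) (Complex.differentiable_one_div_Gamma.continuous.norm.continuousOn)
  refine ⟨|B| + |B'|, Real.pi, fun s hs => ?_⟩
  have hpi := Real.pi_pos
  by_cases him : 1 ≤ |s.im|
  · refine (steps him m).trans ?_
    have hre : (s - m).re = s.re - m := by simp
    have him' : (s - m).im = s.im := by simp
    obtain ⟨hs1, hs2⟩ := abs_le.1 hs
    rw [inv_Gamma_left (by rw [hre]; linarith), norm_div, norm_mul]
    have h1 : ‖Gamma (1 - (s - m))‖ ≤ |B| := by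
      refine (norm_Gamma_le_re ?_).trans ((hB ⟨_, ⟨?_, ?_⟩, rfl⟩).trans (le_abs_self B))
      · simp only [sub_re, one_re, natCast_re]
        linarith
      · simp only [sub_re, one_re, natCast_re]
        linarith
      · simp only [sub_re, one_re, natCast_re]
        linarith
    have h2 : ‖Complex.sin (Real.pi * (s - m))‖ ≤ Real.exp (Real.pi * |s.im|) := by
      refine (norm_sin_le _).trans_eq ?_
      rw [Complex.im_ofReal_mul, him', abs_mul, abs_of_pos hpi]
    have h3 : ‖(Real.pi : ℂ)‖ = Real.pi := by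
      rw [Complex.norm_real, Real.norm_eq_abs, abs_of_pos hpi]
    rw [h3, div_le_iff₀ hpi]
    have h4 : 1 ≤ Real.pi := by linarith [Real.pi_gt_three]
    have h5 := Real.exp_pos (Real.pi * |s.im|)
    have h6 := abs_nonneg B
    have h7 := abs_nonneg B'
    calc ‖Gamma (1 - (s - m))‖ * ‖Complex.sin (Real.pi * (s - m))‖
        ≤ |B| * Real.exp (Real.pi * |s.im|) := mul_le_mul h1 h2 (norm_nonneg _) h6
      _ ≤ (|B| + |B'|) * Real.exp (Real.pi * |s.im|) := by nlinarith
      _ ≤ (|B| + |B'|) * Real.exp (Real.pi * |s.im|) * Real.pi := by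
        refine le_mul_of_one_le_right ?_ h4
        positivity
  · have h1 : ‖(Gamma s)⁻¹‖ ≤ |B'| := by
      refine (hB' ⟨s, ⟨abs_le.1 hs, abs_le.1 (not_le.1 him).le⟩, rfl⟩).trans (le_abs_self _)
    have h2 : 1 ≤ Real.exp (Real.pi * |s.im|) := Real.one_le_exp (by positivity)
    have h6 := abs_nonneg B
    have h7 := abs_nonneg B'
    calc ‖(Gamma s)⁻¹‖ ≤ |B'| := h1
      _ ≤ |B| + |B'| := by linarith
      _ ≤ (|B| + |B'|) * Real.exp (Real.pi * |s.im|) := le_mul_of_one_le_right (by positivity) h2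

lemma gr_inv_GammaR : Gr (fun s => (Gammaℝ s)⁻¹) := by
  have h1 : Gr (fun s => (Gamma (s / 2))⁻¹) := by
    intro b
    obtain ⟨C, A, hC, hA, h⟩ := gr_inv_Gamma.pos b
    refine ⟨C, A, fun s hs => ?_⟩
    have e1 : (s / 2).re = s.re / 2 := by simp
    have e2 : (s / 2).im = s.im / 2 := by simp
    have h2 : |(s / 2).re| ≤ b := by
      rw [e1, abs_div, abs_two]
      linarith [abs_nonneg s.re]
    refine (h _ h2).trans (mul_le_mul_of_nonneg_left (Real.exp_le_exp.2 ?_) hC)
    refine mul_le_mul_of_nonneg_left ?_ hA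
    rw [e2, abs_div, abs_two]
    linarith [abs_nonneg s.im]
  have h2 : Gr (fun s => ((Real.pi : ℂ) ^ (-s / 2))⁻¹) := by
    intro b
    refine ⟨Real.pi ^ b, 0, fun s hs => ?_⟩
    have e1 : (-s / 2).re = -(s.re / 2) := by
      simp
      ring
    rw [norm_inv, Complex.norm_cpow_eq_rpow_re_of_pos Real.pi_pos, e1, zero_mul, Real.exp_zero,
      mul_one, Real.rpow_neg Real.pi_pos.le, inv_inv]
    refine Real.rpow_le_rpow_of_exponent_le (by linarith [Real.pi_gt_three]) ?_
    have := le_abs_self s.re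
    have := abs_nonneg s.re
    linarith
  have h3 := h2.mul h1
  refine fun b => ?_
  obtain ⟨C, A, h⟩ := h3 b
  refine ⟨C, A, fun s hs => ?_⟩
  show ‖(Gammaℝ s)⁻¹‖ ≤ _
  rw [Gammaℝ_def, mul_inv]
  exact h s hs

lemma gammaC_inv (s : ℂ) : (Gammaℂ s)⁻¹ = (Gammaℝ s)⁻¹ * (Gammaℝ (s + 1))⁻¹ := by
  rw [← Gammaℝ_mul_Gammaℝ_add_one, mul_inv]

lemma gr_inv_GammaC : Gr (fun s => (Gammaℂ s)⁻¹) := by
  simp only [gammaC_inv]
  exact gr_inv_GammaR.mul (gr_inv_GammaR.shift 1)

end GEa

open GEa in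
theorem pf_GE : U_GE := by
  classical
  intro K _ _ k ν hk
  have hC : Differentiable ℂ (fun s => (Gammaℂ s)⁻¹) := by
    simp only [gammaC_inv]
    exact differentiable_Gammaℝ_inv.mul
      (differentiable_Gammaℝ_inv.comp (differentiable_id.add_const _))
  have hne1 : ∀ (v : InfinitePlace K) (s : ℂ), 0 < s.re →
      v.IsReal → 0 < (s + k v - ν v * I).re := by
    intro v s hs hv
    rcases hk v hv with h | h
    · simp [h, hs]
    · simp [h]
      linarith
  have hne2 : ∀ (v : InfinitePlace K) (s : ℂ), 0 < s.re →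
      0 < (s + ((|(k v : ℝ)| : ℝ) : ℂ) / 2 - ν v * I).re := by
    intro v s hs
    have h1 : (s + ((|(k v : ℝ)| : ℝ) : ℂ) / 2 - ν v * I).re = s.re + |(k v : ℝ)| / 2 := by
      simp
    rw [h1]
    positivity
  have hCne : ∀ s : ℂ, 0 < s.re → Gammaℂ s ≠ 0 := by
    intro s hs
    rw [← Gammaℝ_mul_Gammaℝ_add_one]
    refine mul_ne_zero (Gammaℝ_ne_zero_of_re_pos hs) (Gammaℝ_ne_zero_of_re_pos ?_)
    rw [add_re, one_re]
    linarith
  have hdi : Differentiable ℂ (fun s => (gG K k ν s)⁻¹) := by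
    unfold gG
    simp only [← Finset.prod_inv_distrib]
    refine Differentiable.fun_finsetProd fun v _ => ?_
    by_cases h : v.IsReal
    · simp only [h, if_true]
      exact differentiable_Gammaℝ_inv.comp ((differentiable_id.add_const _).sub_const _)
    · simp only [h, if_false]
      exact hC.comp ((differentiable_id.add_const _).sub_const _)
  have hne : ∀ s : ℂ, 0 < s.re → gG K k ν s ≠ 0 := by
    intro s hs
    unfold gG
    refine Finset.prod_ne_zero_iff.2 fun v _ => ?_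
    split_ifs with h1
    · exact Gammaℝ_ne_zero_of_re_pos (hne1 v s hs h1)
    · exact hCne _ (hne2 v s hs)
  refine ⟨hdi, fun s hs => ⟨hne s hs, ?_⟩, ?_⟩
  · have h1 : gG K k ν = fun s => ((gG K k ν s)⁻¹)⁻¹ := by
      funext s
      rw [inv_inv]
    rw [h1]
    exact (hdi s).inv (inv_ne_zero (hne s hs))
  · have h1 : Gr (fun s => (gG K k ν s)⁻¹) := by
      unfold gG
      simp only [← Finset.prod_inv_distrib]
      refine Gr.prod _ fun v _ => ?_
      by_cases h : v.IsReal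
      · simp only [h, if_true, add_sub_assoc]
        exact gr_inv_GammaR.shift _
      · simp only [h, if_false, add_sub_assoc]
        exact gr_inv_GammaC.shift _
    exact h1

end Pool.Agent.H18.GLB
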