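import Pool.Agent.H23.LC.Targets
import Pool.Agent.H87.HK.YC
import Pool.Agent.H23.LB.Targets

/-!
# (UH) the lower bound for the Fourier coefficient of the thin region
-/

set_option autoImplicit false

open NumberField NumberField.InfinitePlace NumberField.Units
  NumberField.Units.dirichletUnitTheorem MeasureTheory Set Filter Complex
open scoped nonZeroDivisors ENNReal

namespace Pool.Agent.H18.GLB

open Pool.Agent.H25.HK Pool.Agent.H23.LB Pool.Agent.H23.LC

namespace UHa

section

variable {K : Type} [Field K] [NumberField K]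

/-- the angle in `[-π, π]` -/
noncomputable def om (v : InfinitePlace K) (θ : ℝ) : ℝ := Complex.arg (an v θ)

omit [NumberField K] in
lemma norm_an (v : InfinitePlace K) (θ : ℝ) : ‖an v θ‖ = 1 := by
  classical
  unfold an
  split_ifs
  · simp
  · simp
  · exact Complex.norm_exp_ofReal_mul_I θ

omit [NumberField K] in
lemma an_eq (v : InfinitePlace K) (θ : ℝ) : an v θ = cexp ((om v θ : ℝ) * I) := by
  have h := Complex.norm_mul_exp_arg_mul_I (an v θ)
  rw [norm_an, ofReal_one, one_mul] at h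
  exact h.symm

omit [NumberField K] in
lemma an_zpow (v : InfinitePlace K) (θ : ℝ) (k : ℤ) :
    an v θ ^ (-k) = cexp ((-((k : ℝ) * om v θ) : ℝ) * I) := by
  rw [an_eq, ← Complex.exp_int_mul]
  congr 1
  push_cast
  ring

lemma ek_eq (k : InfinitePlace K → ℤ) (θ : InfinitePlace K → ℝ) :
    ek k θ = cexp ((-(∑ v, (k v : ℝ) * om v (θ v)) : ℝ) * I) := by
  unfold ek
  simp only [an_zpow]
  rw [← Complex.exp_sum]
  congr 1
  push_cast
  rw [← Finset.sum_neg_distrib, Finset.sum_mul]

/-- the support of the function at one place -/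
lemma supp_y {a δ : ℝ} {w : ℂ} (hw : ‖w‖ = 1) (hδ1 : δ ≤ 1 / 2)
    (h : ‖((Real.exp a : ℝ) : ℂ) * w - 1‖ ≤ δ) : |Real.exp a - 1| ≤ δ ∧ |a| ≤ 2 * δ := by
  have hδ0 : 0 ≤ δ := (norm_nonneg _).trans h
  have h1 : |Real.exp a - 1| ≤ δ := by
    refine le_trans ?_ h
    have := abs_norm_sub_norm_le (((Real.exp a : ℝ) : ℂ) * w) 1
    rw [norm_mul, hw, Complex.norm_real, Real.norm_eq_abs, abs_of_pos (Real.exp_pos a), norm_one,
      mul_one] at this
    exact this
  refine ⟨h1, ?_⟩
  obtain ⟨h2, h3⟩ := abs_le.1 h1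
  rw [abs_le]
  constructor
  · have h4 := Real.add_one_le_exp (-a)
    have h5 : Real.exp (-a) ≤ 1 + 2 * δ := by
      rw [Real.exp_neg, inv_le_iff_one_le_mul₀ (Real.exp_pos a)]
      nlinarith
    linarith
  · have h4 := Real.add_one_le_exp a
    linarith

omit [NumberField K] in
lemma supp_om {v : InfinitePlace K} {θ a δ : ℝ} (hδ1 : δ ≤ 1 / 2)
    (h : ‖((Real.exp a : ℝ) : ℂ) * an v θ - 1‖ ≤ δ) : |om v θ| ≤ 4 * δ := by
  have hδ0 : 0 ≤ δ := (norm_nonneg _).trans h
  obtain ⟨h1, -⟩ := supp_y (norm_an v θ) hδ1 h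
  have h2 : ‖an v θ - 1‖ ≤ 2 * δ := by
    have h3 : an v θ - 1 = (((Real.exp a : ℝ) : ℂ) * an v θ - 1) -
        ((Real.exp a - 1 : ℝ) : ℂ) * an v θ := by
      push_cast
      ring
    rw [h3]
    refine (norm_sub_le _ _).trans ?_
    rw [norm_mul, norm_an, mul_one, Complex.norm_real, Real.norm_eq_abs]
    linarith
  have h4 : |om v θ / 2| ≤ Real.pi / 2 := by
    rw [abs_div, abs_two]
    have := Complex.abs_arg_le_pi (an v θ)
    unfold om
    linarith
  have h5 := Real.mul_abs_le_abs_sin h4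
  have h6 : ‖an v θ - 1‖ = 2 * |Real.sin (om v θ / 2)| := by
    rw [an_eq v θ, mul_comm, Complex.norm_exp_I_mul_ofReal_sub_one, Real.norm_eq_abs, abs_mul,
      abs_two]
  rw [h6] at h2
  rw [abs_div, abs_two] at h5
  have h7 := Real.pi_pos
  have h8 := Real.pi_lt_d2
  have h9 : |om v θ| ≤ Real.pi * δ := by
    have h10 : 2 / Real.pi * (|om v θ| / 2) ≤ δ := h5.trans (by linarith)
    have h11 : 2 / Real.pi * (|om v θ| / 2) = |om v θ| / Real.pi := by
      field_simp
    rw [h11, div_le_iff₀ h7] at h10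
    linarith
  nlinarith

variable (K)

lemma sum_mult : ∑ v : InfinitePlace K, (v.mult : ℝ) = Module.finrank ℚ K := by
  rw [← sum_mult_eq]
  push_cast
  rfl

variable {K}

omit [NumberField K] in
lemma one_le_mult' (v : InfinitePlace K) : (1 : ℝ) ≤ v.mult := one_le_mult

/-- the bound of the phase -/
lemma phase (k : InfinitePlace K → ℤ) (ν : InfinitePlace K → ℝ) (T t δ : ℝ)
    (hk : ∀ v, |ν v| ≤ T ∧ |(k v : ℝ)| ≤ T) (ht : |t| ≤ T) (hT : 0 ≤ T)
    (y ω : InfinitePlace K → ℝ) (hy : ∀ v, |y v| ≤ 4 * δ) (hω : ∀ v, |ω v| ≤ 4 * δ) :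
    |-((∑ v, (v.mult : ℝ) * ν v * y v) / 2) + t * ((∑ v, (v.mult : ℝ) * y v) / 2) +
      -(∑ v, (k v : ℝ) * ω v)| ≤ 8 * (Module.finrank ℚ K) * T * δ := by
  have hδ : 0 ≤ 4 * δ := (abs_nonneg _).trans (hy w₀)
  have h1 : |∑ v, (v.mult : ℝ) * ν v * y v| ≤ (Module.finrank ℚ K : ℝ) * (T * (4 * δ)) := by
    rw [← sum_mult K, Finset.sum_mul]
    refine (Finset.abs_sum_le_sum_abs _ _).trans (Finset.sum_le_sum fun v _ => ?_)
    rw [mul_assoc, abs_mul, abs_mul, abs_of_nonneg (Nat.cast_nonneg v.mult)]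
    exact mul_le_mul_of_nonneg_left (mul_le_mul (hk v).1 (hy v) (abs_nonneg _) hT)
      (Nat.cast_nonneg _)
  have h2 : |∑ v, (v.mult : ℝ) * y v| ≤ (Module.finrank ℚ K : ℝ) * (4 * δ) := by
    rw [← sum_mult K, Finset.sum_mul]
    refine (Finset.abs_sum_le_sum_abs _ _).trans (Finset.sum_le_sum fun v _ => ?_)
    rw [abs_mul, abs_of_nonneg (Nat.cast_nonneg v.mult)]
    exact mul_le_mul_of_nonneg_left (hy v) (Nat.cast_nonneg _)
  have h3 : |∑ v, (k v : ℝ) * ω v| ≤ (Module.finrank ℚ K : ℝ) * (T * (4 * δ)) := by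
    rw [← sum_mult K, Finset.sum_mul]
    refine (Finset.abs_sum_le_sum_abs _ _).trans (Finset.sum_le_sum fun v _ => ?_)
    rw [abs_mul]
    refine (mul_le_mul (hk v).2 (hω v) (abs_nonneg _) hT).trans ?_
    exact le_mul_of_one_le_left (mul_nonneg hT hδ) (one_le_mult' v)
  have h4 : |t * ((∑ v, (v.mult : ℝ) * y v) / 2)| ≤
      T * ((Module.finrank ℚ K : ℝ) * (4 * δ) / 2) := by
    rw [abs_mul, abs_div, abs_two]
    refine mul_le_mul ht (by linarith) (by positivity) hT
  have h5 : |-((∑ v, (v.mult : ℝ) * ν v * y v) / 2)| ≤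
      (Module.finrank ℚ K : ℝ) * (T * (4 * δ)) / 2 := by
    rw [abs_neg, abs_div, abs_two]
    linarith
  refine (abs_add_le _ _).trans ?_
  have h6 := abs_add_le (-((∑ v, (v.mult : ℝ) * ν v * y v) / 2))
    (t * ((∑ v, (v.mult : ℝ) * y v) / 2))
  rw [abs_neg (∑ v, (k v : ℝ) * ω v)]
  nlinarith


open scoped Classical in
/-- the indicator of the support -/
noncomputable def ch1 (K : Type) [Field K] [NumberField K] (δ : ℝ) (p : logSpace K × ℝ)
    (θ : InfinitePlace K → ℝ) : ℝ := if Bp δ (1 : K) (yc K p.2 p.1) θ then 1 else 0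

omit [NumberField K] in
lemma measurable_an (v : InfinitePlace K) : Measurable (an v) := by
  classical
  unfold an
  by_cases h : v.IsReal
  · simp only [h, if_true]
    exact Measurable.ite measurableSet_Iio measurable_const measurable_const
  · simp only [h, if_false]
    exact (Complex.measurable_exp.comp (Complex.measurable_ofReal.mul_const I))

lemma measurableSet_Bp (δ : ℝ) : MeasurableSet
    {q : (logSpace K × ℝ) × (InfinitePlace K → ℝ) | Bp δ (1 : K) (yc K q.1.2 q.1.1) q.2} := by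
  have hcont := (Pool.Agent.H87.HK.yc_main K).2.2.2.2.1
  unfold Bp
  simp only [Set.ofPred_forall]
  refine MeasurableSet.iInter fun v => ?_
  refine measurableSet_le ?_ measurable_const
  refine Measurable.norm (Measurable.sub_const ?_ _)
  refine Measurable.mul ?_ ?_
  · refine Measurable.const_mul ?_ _
    refine Complex.measurable_ofReal.comp (Real.measurable_exp.comp ?_)
    refine Measurable.div_const ?_ _
    have h1 : Continuous fun p : logSpace K × ℝ => yc K p.2 p.1 v :=
      (continuous_apply v).comp (hcont.comp continuous_swap)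
    exact h1.measurable.comp measurable_fst
  · exact (measurable_an v).comp ((measurable_pi_apply v).comp measurable_snd)

lemma measurableSet_Bp' (δ : ℝ) (y : InfinitePlace K → ℝ) : MeasurableSet
    {θ : InfinitePlace K → ℝ | Bp δ (1 : K) y θ} := by
  unfold Bp
  simp only [Set.ofPred_forall]
  refine MeasurableSet.iInter fun v => ?_
  refine measurableSet_le ?_ measurable_const
  refine Measurable.norm (Measurable.sub_const ?_ _)
  exact ((measurable_an v).comp (measurable_pi_apply v)).const_mul _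

lemma measurable_ek (k : InfinitePlace K → ℤ) : Measurable (ek k) := by
  unfold ek
  refine Finset.measurable_prod _ fun v _ => ?_
  refine Measurable.pow_const ?_ _
  exact (measurable_an v).comp (measurable_pi_apply v)

lemma norm_ek (k : InfinitePlace K → ℤ) (θ : InfinitePlace K → ℝ) : ‖ek k θ‖ = 1 := by
  rw [ek_eq, Complex.norm_exp_ofReal_mul_I]

lemma measurableSet_An : MeasurableSet (An K) :=
  MeasurableSet.univ_pi fun _ => measurableSet_Icc

lemma volume_An : volume (An K) < ⊤ := by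
  unfold An
  rw [volume_pi_pi]
  refine ENNReal.prod_lt_top fun v _ => ?_
  rw [Real.volume_Icc]
  exact ENNReal.ofReal_lt_top

open scoped Classical in
lemma int_chi (δ : ℝ) (y : InfinitePlace K → ℝ) :
    IntegrableOn (fun θ => if Bp δ (1 : K) y θ then (1 : ℝ) else 0) (An K) := by
  refine Measure.integrableOn_of_bounded (M := 1) volume_An.ne ?_ ?_
  · exact (Measurable.ite (measurableSet_Bp' δ y) measurable_const
      measurable_const).aestronglyMeasurable
  · refine Filter.Eventually.of_forall fun θ => ?_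
    split_ifs <;> simp

end

end UHa

open UHa in
theorem pf_UH (hVL : U_VL) (hPU : Pool.Agent.H23.LB.T_PU) : U_UH := by
  classical
  intro n hn
  obtain ⟨c, C, hc, -, hvl⟩ := hVL n
  refine ⟨c / 2 * (1 / 4) ^ n, by positivity, ?_⟩
  intro K _ _ hK k ν T t δ hk hν ht hT hδ
  have hn' : (1 : ℝ) ≤ n := by exact_mod_cast hn
  have hδ0 : 0 < δ := by rw [hδ]; positivity
  have hδT : 8 * (n : ℝ) * T * δ = 1 / 8 := by
    rw [hδ]
    field_simp
    norm_num
  have hδ1 : δ ≤ 1 / 64 := by
    rw [hδ]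
    refine one_div_le_one_div_of_le (by norm_num) ?_
    nlinarith
  have hpi := Real.pi_gt_three
  obtain ⟨hsum, -, -, -, hcont, -⟩ := Pool.Agent.H87.HK.yc_main K
  obtain ⟨-, hpr, -, -, hec, -, -⟩ := hPU K
  -- the integrand
  obtain ⟨f, hf⟩ : ∃ f : logSpace K × ℝ → (InfinitePlace K → ℝ) → ℂ, f = fun p θ =>
      ek k θ * if Bp δ (1 : K) (yc K p.2 p.1) θ then 1 else 0 := ⟨_, rfl⟩
  obtain ⟨J, hJ⟩ : ∃ J : logSpace K × ℝ → ℂ, J = fun p => ∫ θ in An K, f p θ := ⟨_, rfl⟩
  obtain ⟨G, hG⟩ : ∃ G : logSpace K × ℝ → ℂ, G = fun p =>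
      ec K ν p.1 * cexp (t * p.2 * I) * J p := ⟨_, rfl⟩
  have hUh : Uh K δ k ν t = ∫ p, G p := by
    rw [hG, hJ, hf]
    rfl
  have hfm : Measurable (Function.uncurry f) := by
    rw [hf]
    refine Measurable.mul ((measurable_ek k).comp measurable_snd) ?_
    exact Measurable.ite (measurableSet_Bp δ) measurable_const measurable_const
  have hJm : StronglyMeasurable J := by
    rw [hJ]
    exact hfm.stronglyMeasurable.integral_prod_right
  have hecm : Measurable fun p : logSpace K × ℝ => ec K ν p.1 * cexp (t * p.2 * I) := by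
    refine ((hec ν).1.measurable.comp measurable_fst).mul ?_
    have h1 : Continuous fun p : logSpace K × ℝ => cexp (t * p.2 * I) := by fun_prop
    exact h1.measurable
  have hGm : AEStronglyMeasurable G volume := by
    rw [hG]
    exact (hecm.aestronglyMeasurable).mul hJm.aestronglyMeasurable
  -- the norm one factor
  have hfac : ∀ p : logSpace K × ℝ, ec K ν p.1 * cexp (t * p.2 * I) =
      cexp ((-((∑ v, (v.mult : ℝ) * ν v * yc K p.2 p.1 v) / 2) +
        t * ((∑ v, (v.mult : ℝ) * yc K p.2 p.1 v) / 2) : ℝ) * I) := by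
    intro p
    unfold ec
    rw [hpr ν hν p.2 p.1, hsum, ← Complex.exp_add]
    congr 1
    push_cast
    ring
  have hfac1 : ∀ p : logSpace K × ℝ, ‖ec K ν p.1 * cexp (t * p.2 * I)‖ = 1 := by
    intro p
    rw [hfac p, Complex.norm_exp_ofReal_mul_I]
  have hfn : ∀ p θ, ‖f p θ‖ ≤ 1 := by
    intro p θ
    rw [hf]
    simp only [norm_mul, norm_ek, one_mul]
    split_ifs <;> simp
  have hfint : ∀ p, IntegrableOn (f p) (An K) := by
    intro p
    refine Measure.integrableOn_of_bounded (M := 1) volume_An.ne ?_ ?_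
    · have : Measurable (f p) := hfm.comp measurable_prodMk_left
      exact this.aestronglyMeasurable
    · exact Filter.Eventually.of_forall fun θ => hfn p θ
  have hsupp : ∀ (p : logSpace K × ℝ) θ, Bp δ (1 : K) (yc K p.2 p.1) θ →
      ∀ v, |yc K p.2 p.1 v| ≤ 4 * δ ∧ |om v (θ v)| ≤ 4 * δ := by
    intro p θ h v
    have h1 := h v
    rw [map_one, one_mul] at h1
    refine ⟨?_, supp_om (by linarith) h1⟩
    have h2 := (supp_y (norm_an v (θ v)) (by linarith) h1).2
    rw [abs_div, abs_two] at h2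
    linarith
  have hJ0 : ∀ p : logSpace K × ℝ, (¬ ∀ v, |yc K p.2 p.1 v| ≤ 4 * δ) → J p = 0 := by
    intro p hp
    rw [hJ, hf]
    have : ∀ θ, ¬ Bp δ (1 : K) (yc K p.2 p.1) θ := fun θ h => hp fun v => (hsupp p θ h v).1
    simp [this]
  have hJn : ∀ p, ‖J p‖ ≤ (volume (An K)).toReal := by
    intro p
    rw [hJ]
    have := norm_setIntegral_le_of_norm_le_const (μ := volume) (s := An K) (C := 1) (f := f p)
      volume_An (fun θ _ => hfn p θ)
    simpa [Measure.real] using this
  have hS : MeasurableSet {p : logSpace K × ℝ | ∀ v : InfinitePlace K,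
      |yc K p.2 p.1 v| ≤ 4 * δ} := by
    simp only [Set.ofPred_forall]
    refine MeasurableSet.iInter fun v => ?_
    refine measurableSet_le ?_ measurable_const
    have h1 : Continuous fun p : logSpace K × ℝ => |yc K p.2 p.1 v| :=
      ((continuous_apply v).comp (hcont.comp continuous_swap)).abs
    exact h1.measurable
  have hSv : volume {p : logSpace K × ℝ | ∀ v : InfinitePlace K,
      |yc K p.2 p.1 v| ≤ 4 * δ} ≠ ⊤ :=
    ((hvl K hK (4 * δ) (by linarith) (by linarith)).2.trans_lt ENNReal.ofReal_lt_top).ne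
  have hGint : Integrable G := by
    have h1 : Integrable ({p : logSpace K × ℝ | ∀ v : InfinitePlace K,
        |yc K p.2 p.1 v| ≤ 4 * δ}.indicator fun _ => (volume (An K)).toReal) :=
      (integrableOn_const hSv).integrable_indicator hS
    refine h1.mono' hGm (Filter.Eventually.of_forall fun p => ?_)
    rw [hG]
    simp only [norm_mul]
    rw [← norm_mul, hfac1 p, one_mul]
    by_cases hp : ∀ v, |yc K p.2 p.1 v| ≤ 4 * δ
    · rw [Set.indicator_of_mem (by exact hp)]
      exact hJn p
    · rw [hJ0 p hp, norm_zero]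
      exact Set.indicator_nonneg (fun _ _ => ENNReal.toReal_nonneg) _
  -- the real part
  have hre : ∀ p θ, (1 / 2 : ℝ) * (if Bp δ (1 : K) (yc K p.2 p.1) θ then 1 else 0) ≤
      (ec K ν p.1 * cexp (t * p.2 * I) * f p θ).re := by
    intro p θ
    rw [hf]
    simp only
    split_ifs with h
    · rw [mul_one, mul_one, hfac p, ek_eq, ← Complex.exp_add, ← add_mul, ← Complex.ofReal_add,
        Complex.exp_ofReal_mul_I_re]
      have h1 := phase k ν T t δ hk ht (by linarith) (yc K p.2 p.1) (fun v => om v (θ v))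
        (fun v => (hsupp p θ h v).1) (fun v => (hsupp p θ h v).2)
      rw [hK, hδT] at h1
      refine le_trans ?_ Real.one_sub_sq_div_two_le_cos
      have h2 := sq_le_sq' (by linarith [(abs_le.1 h1).1]) (abs_le.1 h1).2
      linarith
    · simp
  have hre2 : ∀ p, (1 / 2 : ℝ) * (∫ θ in An K, if Bp δ (1 : K) (yc K p.2 p.1) θ then (1 : ℝ)
      else 0) ≤ (G p).re := by
    intro p
    have h1 : Integrable (fun θ => ec K ν p.1 * cexp (t * p.2 * I) * f p θ)
        (volume.restrict (An K)) := (hfint p).const_mul _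
    have h2 : (G p).re = ∫ θ in An K, (ec K ν p.1 * cexp (t * p.2 * I) * f p θ).re := by
      have h3 := integral_re h1
      rw [integral_const_mul] at h3
      rw [hG, hJ]
      exact h3.symm
    rw [h2, ← integral_const_mul]
    have h4 : Integrable (fun θ => (1 / 2 : ℝ) * if Bp δ (1 : K) (yc K p.2 p.1) θ then (1 : ℝ)
        else 0) (volume.restrict (An K)) := (int_chi δ (yc K p.2 p.1)).const_mul _
    exact integral_mono h4 h1.re fun θ => hre p θ
  have hre0 : ∀ p, 0 ≤ (G p).re := by
    intro p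
    refine le_trans ?_ (hre2 p)
    refine mul_nonneg (by norm_num) (integral_nonneg fun θ => ?_)
    show (0 : ℝ) ≤ if Bp δ (1 : K) (yc K p.2 p.1) θ then 1 else 0
    split_ifs <;> norm_num
  -- the box of the angles
  obtain ⟨X, hX⟩ : ∃ X : Set (InfinitePlace K → ℝ), X = Set.univ.pi fun v : InfinitePlace K =>
      Icc (0 : ℝ) (if v.IsReal then 1 else δ / 4) := ⟨_, rfl⟩
  have hXA : X ⊆ An K := by
    rw [hX]
    refine Set.pi_mono fun v _ => Icc_subset_Icc le_rfl ?_
    split_ifs <;> linarith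
  have hXm : MeasurableSet X := by
    rw [hX]
    exact MeasurableSet.univ_pi fun _ => measurableSet_Icc
  have hXv : volume.real X = (δ / 4) ^ nrComplexPlaces K := by
    rw [Measure.real, hX, volume_pi_pi]
    simp only [Real.volume_Icc, sub_zero]
    rw [ENNReal.toReal_prod]
    have h1 : ∀ v : InfinitePlace K, (ENNReal.ofReal (if v.IsReal then 1 else δ / 4)).toReal =
        if v.IsReal then 1 else δ / 4 := by
      intro v
      refine ENNReal.toReal_ofReal ?_
      split_ifs <;> positivity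
    simp only [h1]
    rw [Finset.prod_ite, Finset.prod_const_one, one_mul, Finset.prod_const]
    congr 1
    rw [nrComplexPlaces, Fintype.card_subtype]
    congr 1
    ext v
    simp only [Finset.mem_filter, Finset.mem_univ, true_and]
    exact not_isReal_iff_isComplex
  have hXB : ∀ p : logSpace K × ℝ, (∀ v, |yc K p.2 p.1 v| ≤ δ / 2) → ∀ θ ∈ X,
      Bp δ (1 : K) (yc K p.2 p.1) θ := by
    intro p hp θ hθ v
    rw [hX] at hθ
    have h1 := hθ v (mem_univ _)
    have h2 := hp v
    rw [map_one, one_mul]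
    have h3 : ∃ φ : ℝ, |φ| ≤ δ / 4 ∧ an v (θ v) = cexp ((φ : ℝ) * I) := by
      by_cases hv : v.IsReal
      · simp only [hv, if_true] at h1
        refine ⟨0, by simp; positivity, ?_⟩
        unfold an
        rw [if_pos hv, if_pos (by linarith [h1.2])]
        simp
      · simp only [hv, if_false] at h1
        refine ⟨θ v, ?_, ?_⟩
        · rw [abs_of_nonneg h1.1]
          exact h1.2
        · unfold an
          rw [if_neg hv]
    obtain ⟨φ, h4, h5⟩ := h3
    rw [h5, Complex.ofReal_exp, ← Complex.exp_add]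
    have h6 : ‖((yc K p.2 p.1 v / 2 : ℝ) : ℂ) + ((φ : ℝ) : ℂ) * I‖ ≤ δ / 2 := by
      refine (norm_add_le _ _).trans ?_
      rw [norm_mul, Complex.norm_I, mul_one, Complex.norm_real, Complex.norm_real,
        Real.norm_eq_abs, Real.norm_eq_abs, abs_div, abs_two]
      linarith
    refine (Complex.norm_exp_sub_one_le (h6.trans (by linarith))).trans ?_
    linarith
  have hlow : ∀ p : logSpace K × ℝ, p ∈ {p : logSpace K × ℝ | ∀ v : InfinitePlace K,
      |yc K p.2 p.1 v| ≤ δ / 2} → 1 / 2 * (δ / 4) ^ nrComplexPlaces K ≤ (G p).re := by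
    intro p hp
    refine le_trans (mul_le_mul_of_nonneg_left ?_ (by norm_num)) (hre2 p)
    rw [← hXv]
    have h6 : IntegrableOn (fun θ => if Bp δ (1 : K) (yc K p.2 p.1) θ then (1 : ℝ) else 0)
        (An K) := int_chi δ (yc K p.2 p.1)
    have h7 : volume X ≠ ⊤ := ((measure_mono hXA).trans_lt volume_An).ne
    have h8 := setIntegral_ge_of_const_le (μ := volume) (s := X) (c := 1) hXm h7
      (f := fun θ => if Bp δ (1 : K) (yc K p.2 p.1) θ then (1 : ℝ) else 0)
      (fun θ hθ => by rw [if_pos (hXB p hp θ hθ)]) (h6.mono_set hXA)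
    rw [smul_eq_mul, mul_one] at h8
    refine h8.trans (setIntegral_mono_set h6 ?_ (HasSubset.Subset.eventuallyLE hXA))
    refine Filter.Eventually.of_forall fun θ => ?_
    show (0 : ℝ) ≤ if Bp δ (1 : K) (yc K p.2 p.1) θ then 1 else 0
    split_ifs <;> norm_num
  have hS1 : MeasurableSet {p : logSpace K × ℝ | ∀ v : InfinitePlace K,
      |yc K p.2 p.1 v| ≤ δ / 2} := by
    simp only [Set.ofPred_forall]
    refine MeasurableSet.iInter fun v => ?_
    refine measurableSet_le ?_ measurable_const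
    have h1 : Continuous fun p : logSpace K × ℝ => |yc K p.2 p.1 v| :=
      ((continuous_apply v).comp (hcont.comp continuous_swap)).abs
    exact h1.measurable
  obtain ⟨hv1, hv2⟩ := hvl K hK (δ / 2) (by linarith) (by linarith)
  have hSv1 : volume {p : logSpace K × ℝ | ∀ v : InfinitePlace K,
      |yc K p.2 p.1 v| ≤ δ / 2} ≠ ⊤ := (hv2.trans_lt ENNReal.ofReal_lt_top).ne
  have hv3 := (ENNReal.ofReal_le_iff_le_toReal hSv1).1 hv1
  have hGre : Integrable fun p => (G p).re := hGint.re
  have hfin : 1 / 2 * (δ / 4) ^ nrComplexPlaces K * (c * (δ / 2) ^ np K) ≤ (∫ p, G p).re := by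
    have h1 := integral_re hGint
    have h2 : (∫ p, G p).re = ∫ p, (G p).re := h1.symm
    rw [h2]
    have h3 := setIntegral_ge_of_const_le (μ := volume) hS1 hSv1 hlow hGre.integrableOn
    rw [smul_eq_mul, mul_comm, Measure.real] at h3
    refine le_trans (le_trans (mul_le_mul_of_nonneg_left hv3 (by positivity)) h3) ?_
    exact setIntegral_le_integral hGre (Filter.Eventually.of_forall hre0)
  rw [hUh]
  refine le_trans ?_ (hfin.trans ((le_abs_self _).trans (Complex.abs_re_le_norm _)))
  have hnn : nrComplexPlaces K + np K = n := by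
    have h1 := card_add_two_mul_card_eq_rank K
    rw [hK] at h1
    unfold np
    omega
  have h1 : (δ / 4) ^ nrComplexPlaces K * (δ / 2) ^ np K = (1 / 4) ^ nrComplexPlaces K *
      (1 / 2) ^ np K * δ ^ n := by
    rw [← hnn, pow_add]
    have e1 : δ / 4 = 1 / 4 * δ := by ring
    have e2 : δ / 2 = 1 / 2 * δ := by ring
    rw [e1, e2, mul_pow, mul_pow]
    ring
  have h2 : (1 / 4 : ℝ) ^ n ≤ (1 / 4) ^ nrComplexPlaces K * (1 / 2) ^ np K := by
    rw [← hnn, pow_add]
    exact mul_le_mul_of_nonneg_left (pow_le_pow_left₀ (by norm_num) (by norm_num) _)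
      (by positivity)
  calc c / 2 * (1 / 4) ^ n * δ ^ n
      ≤ c / 2 * ((1 / 4) ^ nrComplexPlaces K * (1 / 2) ^ np K) * δ ^ n := by gcongr
    _ = c / 2 * ((δ / 4) ^ nrComplexPlaces K * (δ / 2) ^ np K) := by rw [h1]; ring
    _ = _ := by ring

end Pool.Agent.H18.GLB
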